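import Pool.Agent.MWH.StmtsA

set_option autoImplicit false

/-!
# Block MWH, row NFE
-/

namespace Pool.Agent.MWH.H10

open Pool.Agent.Helper14_MV Pool.Agent.Helper2_MV Pool.Agent.MVO Pool.Agent.MWL Pool.Agent.MWS

theorem shp_mem {k : ℕ} {B C : ℕ → List ℕ} (hC : BlkOk k C) (h : Shp k B C) {j : ℕ} (hj : j ≤ k)
    {x : ℕ} (hx : x ∈ C j) : x ∈ B j := by
  have hn := hC j hj x hx
  have h1 : (B j).count x = (C j).count x ∨ (2 ≤ (B j).count x ∧ 2 ≤ (C j).count x) := h x hn j hj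
  have h2 : 0 < (C j).count x := List.count_pos_iff.2 hx
  rw [← List.count_pos_iff]
  omega

theorem shp_symm {k : ℕ} {B C : ℕ → List ℕ} (h : Shp k B C) : Shp k C B := by
  intro c hc j hj
  rcases h c hc j hj with h1 | ⟨h1, h2⟩
  · exact Or.inl h1.symm
  · exact Or.inr ⟨h2, h1⟩

theorem shp_trans {k : ℕ} {B C D : ℕ → List ℕ} (h : Shp k B C) (h' : Shp k C D) : Shp k B D := by
  intro c hc j hj
  have h1 := h c hc j hj
  have h2 := h' c hc j hj
  omega

theorem nfe (hmas : MWS.MasStmt) : NfeStmt := by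
  intro β hb k B B' hB hB' hS hF
  refine hmas β β hb.toBaseR.toApI hb.itr (fun _ _ h => h) k B B' hB hB' hS ?_
  intro C i A D x y hC hSC hi hCi hne _ _ hnb
  have hx : x ∈ C i := by rw [hCi]; simp
  have hy : y ∈ C i := by rw [hCi]; simp
  by_cases hall : ∀ j ≤ k, j ≠ i → x ∉ B j ∨ y ∉ B j
  · exact absurd (hF i hi x y hne (shp_mem hC.ok hSC hi hx) (shp_mem hC.ok hSC hi hy) hall) hnb
  · push Not at hall
    obtain ⟨j, hj, hji, h1, h2⟩ := hall
    exact hb.cm2 k C hC i hi j hj hji A D x y hCi hne (shp_mem hB.ok (shp_symm hSC) hj h1)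
      (shp_mem hB.ok (shp_symm hSC) hj h2)

end Pool.Agent.MWH.H10
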