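import Pool.Agent.Helper10_MWH.NFE

set_option autoImplicit false

/-!
# Block MWH, row SWH
-/

namespace Pool.Agent.MWH.H10

open Pool.Agent.Helper14_MV Pool.Agent.Helper2_MV Pool.Agent.MVO Pool.Agent.MWL Pool.Agent.MWS

theorem bef_app (A M : List ℕ) (c d : ℕ) :
    Bef (A ++ M) c d ↔ Bef A c d ∧ Bef M c d ∧ (d ∈ A → c ∉ M) := by
  constructor
  · intro h
    refine ⟨?_, ?_, ?_⟩
    · intro P Q hP hc
      exact h P (Q ++ M) (by rw [hP]; simp) (List.mem_append_left _ hc)
    · intro P Q hP hc
      exact h (A ++ P) Q (by rw [hP]; simp) hc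
    · intro hd hc
      obtain ⟨P, Q, hPQ⟩ := List.append_of_mem hd
      exact h P (Q ++ M) (by rw [hPQ]; simp) (List.mem_append_right _ hc)
  · rintro ⟨h1, h2, h3⟩ P Q hP hc
    rcases List.append_eq_append_iff.1 hP with ⟨a', h4, h5⟩ | ⟨c', h4, h5⟩
    · exact h2 a' Q h5 hc
    · cases c' with
      | nil => exact h2 [] Q h5.symm hc
      | cons e c'' =>
        simp only [List.cons_append, List.cons.injEq] at h5
        obtain ⟨h6, h7⟩ := h5
        subst h6
        have hd : d ∈ A := by rw [h4]; simp
        rw [h7, List.mem_append] at hc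
        rcases hc with hc | hc
        · exact h1 P c'' h4 hc
        · exact h3 hd hc

theorem bef_rep (n z : ℕ) {c d : ℕ} (h : c ≠ d) : Bef (List.replicate n z) c d := by
  intro P Q hP hc
  have h1 : d ∈ List.replicate n z := by rw [hP]; simp
  have h2 : c ∈ List.replicate n z := by rw [hP]; simp [hc]
  exact h ((List.eq_of_mem_replicate h2).trans (List.eq_of_mem_replicate h1).symm)

theorem bef_one (z : ℕ) {c d : ℕ} (h : c ≠ d) : Bef [z] c d := bef_rep 1 z h

theorem bef_nm1 {l : List ℕ} {c d : ℕ} (h : c ∉ l) : Bef l c d :=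
  fun P Q hP hc => h (by rw [hP]; simp [hc])

theorem bef_nm2 {l : List ℕ} {c d : ℕ} (h : d ∉ l) : Bef l c d :=
  fun P Q hP _ => h (by rw [hP]; simp)

theorem bef_pair {a b c d : ℕ} (h : c ≠ d) : Bef [a, b] c d ↔ ¬ (d = a ∧ c = b) := by
  have h1 := bef_app [a] [b] c d
  have h2 : Bef [a, b] c d ↔ Bef [a] c d ∧ Bef [b] c d ∧ (d ∈ [a] → c ∉ [b]) := h1
  rw [h2]
  simp only [bef_one a h, bef_one b h, true_and, List.mem_singleton]
  tauto

theorem bef_filter (b : List ℕ) (f : ℕ → Bool) (x y : ℕ) (hx : f x = true) (hy : f y = true) :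
    Bef (b.filter f) x y ↔ Bef b x y := by
  constructor
  · intro h P Q hP hc
    refine h (P.filter f) (Q.filter f) ?_ (List.mem_filter.2 ⟨hc, hx⟩)
    rw [hP, List.filter_append, List.filter_cons_of_pos hy]
  · intro h P' Q' hP hc
    obtain ⟨l1, l2, h1, h2, h3⟩ := List.filter_eq_append_iff.1 hP
    obtain ⟨m1, m2, h4, h5, h6, h7⟩ := List.filter_eq_cons_iff.1 h3
    rw [← h7] at hc
    refine h (l1 ++ m1) m2 ?_ (List.mem_of_mem_filter hc)
    rw [h1, h4]
    simp

theorem mid {A M M' D : List ℕ} {c d : ℕ} (hm : ∀ e, e ∈ M ↔ e ∈ M')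
    (hb : (d ∈ A → c ∉ M) → (d ∈ M → c ∉ D) → (Bef M c d ↔ Bef M' c d)) :
    Bef (A ++ (M ++ D)) c d ↔ Bef (A ++ (M' ++ D)) c d := by
  rw [bef_app, bef_app, bef_app, bef_app]
  constructor
  · rintro ⟨h1, ⟨h2, h3, h4⟩, h5⟩
    refine ⟨h1, ⟨(hb (fun hd hc => h5 hd (List.mem_append_left _ hc)) h4).1 h2, h3,
      fun hd => h4 ((hm d).2 hd)⟩, fun hd hc => h5 hd ?_⟩
    rw [List.mem_append] at hc ⊢
    rwa [hm c]
  · rintro ⟨h1, ⟨h2, h3, h4⟩, h5⟩
    refine ⟨h1, ⟨(hb (fun hd hc => h5 hd (List.mem_append_left _ ((hm c).1 hc)))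
      (fun hd => h4 ((hm d).1 hd))).2 h2, h3, fun hd => h4 ((hm d).1 hd)⟩, fun hd hc => h5 hd ?_⟩
    rw [List.mem_append] at hc ⊢
    rwa [← hm c]

/-- the same shape and the same facts -/
def G (l l1 : List ℕ) : Prop :=
  (∀ c, l.count c = l1.count c ∨ (2 ≤ l.count c ∧ 2 ≤ l1.count c)) ∧
    ∀ c d, c ≠ d → (Bef l c d ↔ Bef l1 c d)

/-- the shape of the letter `z` -/
def Sz (b l : List ℕ) (z : ℕ) : Prop :=
  b.count z = l.count z ∨ (2 ≤ b.count z ∧ 2 ≤ l.count z)

theorem filt_one (b : List ℕ) (f : ℕ → Bool) (z : ℕ) (hz : ∀ c ∈ b, f c = true → c = z)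
    (fz : f z = true) : b.filter f = List.replicate (b.count z) z := by
  have h1 : ∀ c ∈ b.filter f, c = z := fun c hc => hz c (List.mem_of_mem_filter hc)
    (List.mem_filter.1 hc).2
  have h2 := List.eq_replicate_of_mem h1
  have h3 : (b.filter f).count z = b.count z := List.count_filter fz
  have h4 : (b.filter f).count z = (b.filter f).length := by
    rw [h2, List.count_replicate_self, List.length_replicate]
  rw [h2, ← h4, h3]

theorem blkz (l : List ℕ) (z : ℕ) : ∃ P Q : List ℕ, ∀ n : ℕ,
    (n = l.count z ∨ (2 ≤ n ∧ 2 ≤ l.count z)) → G l (P ++ List.replicate n z ++ Q) := by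
  by_cases hz : z ∈ l
  · obtain ⟨P, Q, hPQ⟩ := List.append_of_mem hz
    refine ⟨P, Q, fun n hn => ?_⟩
    have hc : l.count z = P.count z + (Q.count z + 1) := by
      rw [hPQ, List.count_append, List.count_cons_self]
    refine ⟨fun c => ?_, fun c d hcd => ?_⟩
    · rw [List.count_append, List.count_append, List.count_replicate, hPQ, List.count_append,
        List.count_cons]
      by_cases hcz : z = c
      · subst hcz
        simp only [beq_self_eq_true, ↓reduceIte]
        omega
      · have h1 : (z == c) = false := by simpa using hcz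
        simp only [h1, Bool.false_eq_true, ↓reduceIte]
        omega
    · have h1 := mid (A := P) (M := [z]) (M' := List.replicate n z) (D := Q) (c := c) (d := d)
        (fun e => by
          rw [List.mem_singleton, List.mem_replicate]
          constructor
          · intro h; exact ⟨by omega, h⟩
          · intro h; exact h.2)
        (fun _ _ => ⟨fun _ => bef_rep n z hcd, fun _ => bef_one z hcd⟩)
      rw [hPQ, List.append_assoc]
      exact h1
  · refine ⟨l, [], fun n hn => ?_⟩
    have h0 : l.count z = 0 := List.count_eq_zero.2 hz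
    have hn0 : n = 0 := by omega
    subst hn0
    refine ⟨fun c => Or.inl ?_, fun c d _ => ?_⟩
    · simp
    · simp

theorem blkj (l : List ℕ) (x y : ℕ) (h : x ∉ l ∨ y ∉ l) : ∃ P Q : List ℕ, ∀ b : List ℕ,
    Sz b l x → Sz b l y → G l (P ++ b.filter (fun c => decide (c = x ∨ c = y)) ++ Q) := by
  rcases h with h | h
  · obtain ⟨P, Q, hG⟩ := blkz l y
    refine ⟨P, Q, fun b hx hy => ?_⟩
    have h0 : l.count x = 0 := List.count_eq_zero.2 h
    have h1 : x ∉ b := by
      rw [← List.count_eq_zero]
      unfold Sz at hx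
      omega
    rw [filt_one b _ y (fun c hc hf => by
      rw [decide_eq_true_iff] at hf
      rcases hf with hf | hf
      · subst hf; exact absurd hc h1
      · exact hf) (by simp)]
    exact hG _ hy
  · obtain ⟨P, Q, hG⟩ := blkz l x
    refine ⟨P, Q, fun b hx hy => ?_⟩
    have h0 : l.count y = 0 := List.count_eq_zero.2 h
    have h1 : y ∉ b := by
      rw [← List.count_eq_zero]
      unfold Sz at hy
      omega
    rw [filt_one b _ x (fun c hc hf => by
      rw [decide_eq_true_iff] at hf
      rcases hf with hf | hf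
      · exact hf
      · subst hf; exact absurd hc h1) (by simp)]
    exact hG _ hx

theorem cnt_mid {l A D b : List ℕ} {x y : ℕ} (hxy : x ≠ y) (hl : l = A ++ x :: y :: D)
    (hx : Sz b l x) (hy : Sz b l y) (c : ℕ) :
    l.count c = (A ++ b.filter (fun c => decide (c = x ∨ c = y)) ++ D).count c ∨
      (2 ≤ l.count c ∧ 2 ≤ (A ++ b.filter (fun c => decide (c = x ∨ c = y)) ++ D).count c) := by
  have h1 : l.count c = A.count c + (D.count c + (if y = c then 1 else 0) +
      (if x = c then 1 else 0)) := by
    rw [hl, List.count_append, List.count_cons, List.count_cons]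
    simp only [beq_iff_eq]
  have h2 : (A ++ b.filter (fun c => decide (c = x ∨ c = y)) ++ D).count c = A.count c +
      (b.filter (fun c => decide (c = x ∨ c = y))).count c + D.count c := by
    rw [List.count_append, List.count_append]
  rw [h2]
  by_cases hc : c = x ∨ c = y
  · have h3 : (b.filter (fun c => decide (c = x ∨ c = y))).count c = b.count c :=
      List.count_filter (by rw [decide_eq_true_iff]; exact hc)
    rw [h3]
    rcases hc with hc | hc
    · subst hc
      rw [if_neg (Ne.symm hxy), if_pos rfl] at h1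
      unfold Sz at hx
      omega
    · subst hc
      rw [if_neg hxy, if_pos rfl] at h1
      unfold Sz at hy
      omega
  · have h3 : (b.filter (fun c => decide (c = x ∨ c = y))).count c = 0 := by
      rw [List.count_eq_zero]
      intro h4
      have h5 := (List.mem_filter.1 h4).2
      rw [decide_eq_true_iff] at h5
      exact hc h5
    rw [if_neg (fun h => hc (Or.inr h.symm)), if_neg (fun h => hc (Or.inl h.symm))] at h1
    omega

theorem blki1 {l A D b : List ℕ} {x y : ℕ} (hxy : x ≠ y) (hl : l = A ++ x :: y :: D)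
    (hx : Sz b l x) (hy : Sz b l y) (hbef : Bef b x y) :
    G l (A ++ b.filter (fun c => decide (c = x ∨ c = y)) ++ D) := by
  have hlx : 0 < l.count x := List.count_pos_iff.2 (by rw [hl]; simp)
  have hly : 0 < l.count y := List.count_pos_iff.2 (by rw [hl]; simp)
  have hbx : x ∈ b := by rw [← List.count_pos_iff]; unfold Sz at hx; omega
  have hby : y ∈ b := by rw [← List.count_pos_iff]; unfold Sz at hy; omega
  have hmem : ∀ e, e ∈ [x, y] ↔ e ∈ b.filter (fun c => decide (c = x ∨ c = y)) := by
    intro e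
    rw [List.mem_filter, decide_eq_true_iff]
    constructor
    · intro h
      have h : e = x ∨ e = y := by simpa using h
      rcases h with h | h
      · subst h; exact ⟨hbx, Or.inl rfl⟩
      · subst h; exact ⟨hby, Or.inr rfl⟩
    · rintro ⟨_, h⟩
      simpa using h
  refine ⟨cnt_mid hxy hl hx hy, fun c d hcd => ?_⟩
  rw [hl, List.append_assoc]
  refine mid (M := [x, y]) hmem (fun _ _ => ?_)
  rw [bef_pair hcd]
  by_cases hc : c = x ∨ c = y
  · by_cases hd : d = x ∨ d = y
    · rw [bef_filter b _ c d (by rw [decide_eq_true_iff]; exact hc)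
        (by rw [decide_eq_true_iff]; exact hd)]
      rcases hc with hc | hc
      · subst hc
        rcases hd with hd | hd
        · exact absurd hd.symm hcd
        · subst hd
          exact ⟨fun _ => hbef, fun _ h => hcd h.2⟩
      · subst hc
        rcases hd with hd | hd
        · subst hd
          refine ⟨fun h => absurd ⟨rfl, rfl⟩ h, fun h _ => ?_⟩
          obtain ⟨P, Q, hPQ⟩ := List.append_of_mem hby
          have h1 : d ∉ Q := hbef P Q hPQ
          have h2 : d ∈ P := by
            rw [hPQ, List.mem_append, List.mem_cons] at hbx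
            rcases hbx with h3 | h3 | h3
            · exact h3
            · exact absurd h3.symm hcd
            · exact absurd h3 h1
          obtain ⟨P1, P2, hP⟩ := List.append_of_mem h2
          refine h P1 (P2 ++ c :: Q) ?_ (by simp)
          rw [hPQ, hP]
          simp
        · exact absurd hd.symm hcd
    · have h1 : d ∉ b.filter (fun c => decide (c = x ∨ c = y)) := by
        rw [← hmem]
        simpa using hd
      refine ⟨fun _ => bef_nm2 h1, fun _ h => hd (Or.inl h.1)⟩
  · have h1 : c ∉ b.filter (fun c => decide (c = x ∨ c = y)) := by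
      rw [← hmem]
      simpa using hc
    refine ⟨fun _ => bef_nm1 h1, fun _ h => hc (Or.inr h.2)⟩

theorem two_facts {b : List ℕ} {x y : ℕ} (hxy : x ≠ y) (h1 : b.count x = 1) (h2 : b.count y = 1)
    (h3 : ¬ Bef b x y) : Bef b y x := by
  unfold Bef at h3
  push Not at h3
  obtain ⟨P', Q', h4, h5⟩ := h3
  intro P Q h6 h7
  have hxQ : x ∉ Q := by
    intro h8
    have h9 : 0 < Q.count x := List.count_pos_iff.2 h8
    rw [h6, List.count_append, List.count_cons_self] at h1
    omega
  have hyP : y ∉ P := by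
    intro h8
    have h9 : 0 < P.count y := List.count_pos_iff.2 h8
    have h10 : 0 < Q.count y := List.count_pos_iff.2 h7
    rw [h6, List.count_append, List.count_cons_of_ne hxy] at h2
    omega
  have h8 : P ++ x :: Q = P' ++ y :: Q' := h6.symm.trans h4
  rcases List.append_eq_append_iff.1 h8 with ⟨a', h9, h10⟩ | ⟨c', h9, h10⟩
  · cases a' with
    | nil =>
      simp only [List.nil_append, List.cons.injEq] at h10
      exact hxy h10.1
    | cons e a'' =>
      simp only [List.cons_append, List.cons.injEq] at h10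
      apply hxQ
      rw [h10.2]
      simp [h5]
  · cases c' with
    | nil =>
      simp only [List.nil_append, List.cons.injEq] at h10
      exact hxy h10.1.symm
    | cons e c'' =>
      simp only [List.cons_append, List.cons.injEq] at h10
      apply hyP
      rw [h9, ← h10.1]
      simp

theorem blki2 {l A D b : List ℕ} {x y : ℕ} (hxy : x ≠ y) (hl : l = A ++ x :: y :: D)
    (hxD : x ∉ D) (hyA : y ∉ A) (hx : Sz b l x) (hy : Sz b l y) (hbef : ¬ Bef b x y) :
    G (A ++ y :: x :: D) (A ++ b.filter (fun c => decide (c = x ∨ c = y)) ++ D) := by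
  have hlx : 0 < l.count x := List.count_pos_iff.2 (by rw [hl]; simp)
  have hly : 0 < l.count y := List.count_pos_iff.2 (by rw [hl]; simp)
  have hbx : x ∈ b := by rw [← List.count_pos_iff]; unfold Sz at hx; omega
  have hby : y ∈ b := by rw [← List.count_pos_iff]; unfold Sz at hy; omega
  have hmem : ∀ e, e ∈ [y, x] ↔ e ∈ b.filter (fun c => decide (c = x ∨ c = y)) := by
    intro e
    rw [List.mem_filter, decide_eq_true_iff]
    constructor
    · intro h
      have h : e = y ∨ e = x := by simpa using h
      rcases h with h | h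
      · subst h; exact ⟨hby, Or.inr rfl⟩
      · subst h; exact ⟨hbx, Or.inl rfl⟩
    · rintro ⟨_, h⟩
      simpa using h.symm
  have hcnt : ∀ c, (A ++ y :: x :: D).count c = l.count c := by
    intro c
    rw [hl, List.count_append, List.count_append, List.count_cons, List.count_cons,
      List.count_cons, List.count_cons]
    omega
  refine ⟨fun c => ?_, fun c d hcd => ?_⟩
  · rw [hcnt c]
    exact cnt_mid hxy hl hx hy c
  rw [List.append_assoc]
  refine mid (M := [y, x]) hmem (fun hA hD => ?_)
  rw [bef_pair hcd]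
  by_cases hc : c = x ∨ c = y
  · by_cases hd : d = x ∨ d = y
    · rw [bef_filter b _ c d (by rw [decide_eq_true_iff]; exact hc)
        (by rw [decide_eq_true_iff]; exact hd)]
      rcases hc with hc | hc
      · subst hc
        rcases hd with hd | hd
        · exact absurd hd.symm hcd
        · subst hd
          exact ⟨fun h => absurd ⟨rfl, rfl⟩ h, fun h => absurd h hbef⟩
      · subst hc
        rcases hd with hd | hd
        · subst hd
          refine ⟨fun _ => ?_, fun _ h => hcd h.2⟩
          have hdA : d ∉ A := fun h => hA h (by simp)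
          have hcD : c ∉ D := hD (by simp)
          have h1 : l.count d = 1 := by
            rw [hl, List.count_append, List.count_cons_self, List.count_cons_of_ne hcd,
              List.count_eq_zero.2 hdA, List.count_eq_zero.2 hxD]
          have h2 : l.count c = 1 := by
            rw [hl, List.count_append, List.count_cons_of_ne (Ne.symm hcd), List.count_cons_self,
              List.count_eq_zero.2 hyA, List.count_eq_zero.2 hcD]
          refine two_facts hxy ?_ ?_ hbef
          · unfold Sz at hx; omega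
          · unfold Sz at hy; omega
        · exact absurd hd.symm hcd
    · have h1 : d ∉ b.filter (fun c => decide (c = x ∨ c = y)) := by
        rw [← hmem]
        simpa using (fun h => hd (Or.symm h))
      refine ⟨fun _ => bef_nm2 h1, fun _ h => hd (Or.inr h.1)⟩
  · have h1 : c ∉ b.filter (fun c => decide (c = x ∨ c = y)) := by
      rw [← hmem]
      simpa using (fun h => hc (Or.symm h))
    refine ⟨fun _ => bef_nm1 h1, fun _ h => hc (Or.inl h.2)⟩

theorem okb_sh {k : ℕ} {C C1 : ℕ → List ℕ} (hC : OkB k C)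
    (h : ∀ j ≤ k, ∀ c, (C j).count c = (C1 j).count c ∨
      (2 ≤ (C j).count c ∧ 2 ≤ (C1 j).count c)) : OkB k C1 := by
  have hmem : ∀ j ≤ k, ∀ c ∈ C1 j, c ∈ C j := by
    intro j hj c hc
    have h1 : 0 < (C1 j).count c := List.count_pos_iff.2 hc
    have h2 := h j hj c
    rw [← List.count_pos_iff]
    omega
  refine ⟨fun j hj c hc => hC.ok j hj c (hmem j hj c hc), fun j hj c hc => ?_⟩
  have h1 := hC.ml j hj c (hmem j hj c hc)
  unfold deg at h1 ⊢
  by_cases hh : ∃ j' ≤ k, 2 ≤ (C1 j').count c
  · obtain ⟨j', hj', h2⟩ := hh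
    exact h2.trans (Finset.single_le_sum (f := fun j => (C1 j).count c) (fun _ _ => Nat.zero_le _)
      (Finset.mem_range.2 (by omega)))
  · push Not at hh
    have h3 : ∑ j ∈ Finset.range (k + 1), (C1 j).count c =
        ∑ j ∈ Finset.range (k + 1), (C j).count c := by
      refine Finset.sum_congr rfl fun j' hj' => ?_
      have hj'' : j' ≤ k := by have := Finset.mem_range.1 hj'; omega
      have h4 := hh j' hj''
      have h5 := h j' hj'' c
      omega
    rw [h3]
    exact h1

theorem rr_G (hnfe : NfeStmt) {β : FIC} (hb : BaseH β) {k : ℕ} {C C1 : ℕ → List ℕ}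
    (hC : OkB k C) (h : ∀ j ≤ k, G (C j) (C1 j)) : RR β (asm k C) (asm k C1) :=
  hnfe β hb k C C1 hC (okb_sh hC fun j hj => (h j hj).1) (fun c _ j hj => (h j hj).1 c)
    (fun i hi x y hxy _ _ _ => (h i hi).2 x y hxy)

theorem core (hnfe : NfeStmt) {β θ : FIC} (hb : BaseH β) (hle : β ≤ θ) {k : ℕ}
    {B B' C : ℕ → List ℕ} {i : ℕ} {A D : List ℕ} {x y : ℕ} (hB : OkB k B) (hB' : OkB k B')
    (hC : OkB k C) (hSC : Shp k B C) (hSC' : Shp k B' C) (hi : i ≤ k)
    (hCi : C i = A ++ x :: y :: D) (hne : x ≠ y) (hxD : x ∉ D) (hyA : y ∉ A)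
    (hno : ∀ j ≤ k, j ≠ i → x ∉ C j ∨ y ∉ C j) (hb1 : Bef (B i) x y) (hb2 : ¬ Bef (B' i) x y)
    (hr : RR θ (asm k (r2 x y B)) (asm k (r2 x y B'))) :
    RR θ (asm k C) (asm k (Function.update C i (A ++ y :: x :: D))) := by
  have hx : x ∈ C i := by rw [hCi]; simp
  have hy : y ∈ C i := by rw [hCi]; simp
  have hnx : NS k x := hC.ok i hi x hx
  have hny : NS k y := hC.ok i hi y hy
  have key : ∀ j, ∃ P Q : List ℕ, j ≤ k → G (C j) (P ++ r2 x y B j ++ Q) ∧
      G (Function.update C i (A ++ y :: x :: D) j) (P ++ r2 x y B' j ++ Q) := by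
    intro j
    by_cases hji : j = i
    · subst hji
      refine ⟨A, D, fun _ => ⟨?_, ?_⟩⟩
      · exact blki1 hne hCi (hSC x hnx j hi) (hSC y hny j hi) hb1
      · rw [Function.update_self]
        exact blki2 hne hCi hxD hyA (hSC' x hnx j hi) (hSC' y hny j hi) hb2
    · by_cases hj : j ≤ k
      · obtain ⟨P, Q, hPQ⟩ := blkj (C j) x y (hno j hj hji)
        refine ⟨P, Q, fun _ => ⟨?_, ?_⟩⟩
        · exact hPQ (B j) (hSC x hnx j hj) (hSC y hny j hj)
        · rw [Function.update_of_ne hji]
          exact hPQ (B' j) (hSC' x hnx j hj) (hSC' y hny j hj)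
      · exact ⟨[], [], fun h => absurd h hj⟩
  choose P Q hPQ using key
  have hC3 : OkB k (Function.update C i (A ++ y :: x :: D)) := by
    refine okb_sh hC fun j _ c => Or.inl ?_
    by_cases hji : j = i
    · subst hji
      rw [Function.update_self, hCi, List.count_append, List.count_append, List.count_cons,
        List.count_cons, List.count_cons, List.count_cons]
      omega
    · rw [Function.update_of_ne hji]
  have e1 : RR θ (asm k C) (asm k (fun j => P j ++ r2 x y B j ++ Q j)) :=
    hle _ _ (rr_G hnfe hb hC fun j hj => (hPQ j hj).1)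
  have e2 : RR θ (asm k (Function.update C i (A ++ y :: x :: D)))
      (asm k (fun j => P j ++ r2 x y B' j ++ Q j)) :=
    hle _ _ (rr_G hnfe hb hC3 fun j hj => (hPQ j hj).2)
  have e3 : RR θ (asm k (fun j => P j ++ r2 x y B j ++ Q j))
      (asm k (fun j => P j ++ r2 x y B' j ++ Q j)) :=
    rr_ins' θ P Q (fun j hj c hc => hB.ok j hj c (List.mem_of_mem_filter hc))
      (fun j hj c hc => hB'.ok j hj c (List.mem_of_mem_filter hc)) hr
  exact θ.trans (θ.trans e1 e3) e2.symm

theorem swh (hmas : MWS.MasStmt) (hnfe : NfeStmt) : SwhStmt := by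
  intro β hb θ hle _ k B B' hB hB' hS hr
  refine hmas β θ hb.toBaseR.toApI hb.itr hle k B B' hB hB' hS ?_
  intro C i A D x y hC hSC hi hCi hne hxD hyA hnb
  have hx : x ∈ C i := by rw [hCi]; simp
  have hy : y ∈ C i := by rw [hCi]; simp
  have hnx : NS k x := hC.ok i hi x hx
  have hny : NS k y := hC.ok i hi y hy
  by_cases hno : ∀ j ≤ k, j ≠ i → x ∉ C j ∨ y ∉ C j
  · have hSC' : Shp k B' C := shp_trans (shp_symm hS) hSC
    have h1 := hr x y hnx hny hne
    by_cases h2 : Bef (B i) x y
    · have h3 : ¬ Bef (B' i) x y := fun h => hnb ⟨fun _ => h, fun _ => h2⟩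
      exact core hnfe hb hle hB hB' hC hSC hSC' hi hCi hne hxD hyA hno h2 h3 h1
    · have h3 : Bef (B' i) x y := by
        by_contra h
        exact hnb ⟨fun h4 => absurd h4 h2, fun h4 => absurd h4 h⟩
      exact core hnfe hb hle hB' hB hC hSC' hSC hi hCi hne hxD hyA hno h3 h2 h1.symm
  · push Not at hno
    obtain ⟨j, hj, hji, h1, h2⟩ := hno
    exact hle _ _ (hb.cm2 k C hC i hi j hj hji A D x y hCi hne h1 h2)

end Pool.Agent.MWH.H10
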